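import Pool.Agent.H.MP_fef6c2_gt.B

namespace Pool.Agent.Results.MP_fef6c2_gt.Rigid
open Set Topology Metric

def Rigid (X : Set (EuclideanSpace ℝ (Fin 2))) : Prop :=
  ∀ f : X → EuclideanSpace ℝ (Fin 2), Continuous f → Function.Injective f → IsEmbedding f

theorem classif (X : Set (EuclideanSpace ℝ (Fin 2))) (h1 : LocallyCompactSpace X)
    (h2 : IsConnected Xᶜ) (h3 : ¬ IsCompact X) (h4 : ¬ IsOpen X) :
    Rigid X ↔ IsClosed X ∧ IsConnected X ∧ Bornology.IsBounded Xᶜ := by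
  let e := Complex.orthonormalBasisOneI.repr
  let h : ℂ ≃ₜ EuclideanSpace ℝ (Fin 2) := e.toHomeomorph
  let k : (h ⁻¹' X : Set ℂ) ≃ₜ X := h.subtype fun _ => Iff.rfl
  have := k.isClosedEmbedding.locallyCompactSpace
  have hb : Bornology.IsBounded (h ⁻¹' X)ᶜ ↔ Bornology.IsBounded Xᶜ := by
    simp only [isBounded_iff_forall_norm_le]
    refine exists_congr fun C => ⟨fun H z hz => ?_, fun H z hz => ?_⟩
    · obtain ⟨w, rfl⟩ := h.surjective z
      exact (e.norm_map w).trans_le (H w hz)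
    · exact (e.norm_map z).symm.trans_le (H _ hz)
  have hc : IsConnected (h ⁻¹' X)ᶜ := h.isConnected_preimage.2 h2
  constructor
  · intro hr
    have hr' : ∀ f : (h ⁻¹' X : Set ℂ) → ℂ, Continuous f → Function.Injective f →
        IsEmbedding f := fun f c i => by
      have := (h.symm.isEmbedding.comp (hr (h ∘ f ∘ k.symm)
        (h.continuous.comp (c.comp k.symm.continuous))
        (h.injective.comp (i.comp k.symm.injective)))).comp k.isEmbedding
      convert this using 1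
      ext z
      simp
    obtain ⟨a, b⟩ := H.MP_fef6c2_gt.closed_cobdd hc.isPreconnected
      (fun H => h3 (h.isCompact_preimage.1 H)) (fun H => h4 (h.isOpen_preimage.1 H)) hr'
    refine ⟨h.isClosed_preimage.1 a, ⟨?_, h.isPreconnected_preimage.1
      (H.MP_fef6c2_gt.conn a b hc.nonempty hr')⟩, hb.1 b⟩
    exact nonempty_iff_ne_empty.2 fun H => h4 (H ▸ isOpen_empty)
  · rintro ⟨a, b, c⟩ f fc fi
    obtain ⟨R, hR, hRX⟩ := (hb.2 c).subset_ball_lt 0 0
    have := (h.isEmbedding.comp (H.MP_fef6c2_gt.rigid (h.isClosed_preimage.2 a)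
      (h.isPreconnected_preimage.2 b.isPreconnected) hR
      (fun z hz => by_contra fun H => (mem_ball_zero_iff.1 (hRX H)).not_ge hz)
      (h.symm ∘ f ∘ k) (h.symm.continuous.comp (fc.comp k.continuous))
      (h.symm.injective.comp (fi.comp k.injective)))).comp k.symm.isEmbedding
    convert this using 1
    ext z
    simp

theorem result :
    (∃ X : Set (EuclideanSpace ℝ (Fin 2)), LocallyCompactSpace X ∧ IsConnected Xᶜ ∧
      ¬ IsCompact X ∧ ¬ IsOpen X ∧ Rigid X) ∧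
    ∀ X : Set (EuclideanSpace ℝ (Fin 2)), LocallyCompactSpace X → IsConnected Xᶜ →
      ¬ IsCompact X → ¬ IsOpen X →
      (Rigid X ↔ IsClosed X ∧ IsConnected X ∧ Bornology.IsBounded Xᶜ) := by
  refine ⟨?_, classif⟩
  have c : IsClosed (ball (0 : EuclideanSpace ℝ (Fin 2)) 1)ᶜ := isOpen_ball.isClosed_compl
  have h1 := c.locallyCompactSpace
  have h2 : IsConnected (ball (0 : EuclideanSpace ℝ (Fin 2)) 1)ᶜᶜ := by
    rw [compl_compl]; exact isConnected_ball one_pos
  have hb : Bornology.IsBounded (ball (0 : EuclideanSpace ℝ (Fin 2)) 1)ᶜᶜ := by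
    rw [compl_compl]; exact isBounded_ball
  have h3 : ¬ IsCompact (ball (0 : EuclideanSpace ℝ (Fin 2)) 1)ᶜ := fun h =>
    NormedSpace.unbounded_univ ℝ (EuclideanSpace ℝ (Fin 2))
      (union_compl_self _ ▸ h.isBounded.union hb)
  obtain ⟨v, hv⟩ := exists_norm_eq (EuclideanSpace ℝ (Fin 2)) zero_le_one
  have hv' : v ∈ (ball (0 : EuclideanSpace ℝ (Fin 2)) 1)ᶜ := by simp [hv]
  have h4 : ¬ IsOpen (ball (0 : EuclideanSpace ℝ (Fin 2)) 1)ᶜ := fun h => by
    rcases isClopen_iff.1 ⟨c, h⟩ with h | h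
    · exact (h ▸ hv' :)
    · have : (0 : EuclideanSpace ℝ (Fin 2)) ∈ (ball 0 1)ᶜ := h ▸ mem_univ _
      simp at this
  refine ⟨_, h1, h2, h3, h4, (classif _ h1 h2 h3 h4).2 ⟨c, ⟨⟨v, hv'⟩, ?_⟩, hb⟩⟩
  have e : (ball (0 : EuclideanSpace ℝ (Fin 2)) 1)ᶜ =
      (fun p : ℝ × EuclideanSpace ℝ (Fin 2) => p.1 • p.2) '' (Ici 1 ×ˢ sphere 0 1) := by
    ext z
    simp only [mem_compl_iff, mem_ball_zero_iff, not_lt]
    constructor
    · intro h
      have h0 : ‖z‖ ≠ 0 := (one_pos.trans_le h).ne'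
      exact ⟨(‖z‖, ‖z‖⁻¹ • z), ⟨h, by simp [norm_smul, h0]⟩, by simp [smul_smul, h0]⟩
    · rintro ⟨p, ⟨h1, h2⟩, rfl⟩
      rw [norm_smul, mem_sphere_zero_iff_norm.1 h2, mul_one]
      exact le_trans h1 (le_abs_self _)
  rw [e]
  refine (isPreconnected_Ici.prod (isPreconnected_sphere ?_ _ _)).image _ (by fun_prop)
  rw [← Module.finrank_eq_rank]
  simp

end Pool.Agent.Results.MP_fef6c2_gt.Rigid
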